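import Pool.Agent.Helper98.GX.St4
import Pool.Agent.Helper53.CX.M_Ext
import Pool.Agent.Helper53.CX.M_Mon
import Pool.Agent.Helper53.CX.M_TorV
import Pool.Agent.Helper53.CX.M_TorOm

/-!
# Project GX, module MVF: monomial valuations of a Frame
-/

set_option autoImplicit false

open scoped BigOperators

namespace Pool.Agent.Helper34.GX

open Pool.Agent.Helper98.GX
open Pool.Agent.Helper53.CX (DivVal LinSys IsNefCartier Pn Kn monO monOrd wt hExt hMon hTorV hTorOm)

private theorem dv_ext {K : Type} [Field K] [Algebra ℂ K] {v w : DivVal K} (h : v.ord = w.ord) : v = w := by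
  cases v
  cases w
  cases h
  rfl

/-- a polynomial of degree at most one -/
private noncomputable def lp {n : ℕ} (c0 : ℂ) (c : Fin n → ℂ) : Pn n :=
  MvPolynomial.C c0 + ∑ j, MvPolynomial.C (c j) * MvPolynomial.X j

private theorem coeff_lp {n : ℕ} (c0 : ℂ) (c : Fin n → ℂ) (m : Fin n →₀ ℕ) :
    MvPolynomial.coeff m (lp c0 c) =
      (if 0 = m then c0 else 0) + ∑ j, (if Finsupp.single j 1 = m then c j else 0) := by
  classical
  unfold lp
  rw [MvPolynomial.coeff_add, MvPolynomial.coeff_C, MvPolynomial.coeff_sum]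
  congr 1
  refine Finset.sum_congr rfl fun j _ => ?_
  rw [MvPolynomial.coeff_C_mul, MvPolynomial.coeff_X, mul_ite, mul_one, mul_zero]

private theorem coeff_lp_zero {n : ℕ} (c0 : ℂ) (c : Fin n → ℂ) : MvPolynomial.coeff 0 (lp c0 c) = c0 := by
  rw [coeff_lp, if_pos rfl, Finset.sum_eq_zero, add_zero]
  intro j _
  rw [if_neg]
  intro h
  have := DFunLike.congr_fun h j
  simp at this

private theorem coeff_lp_one {n : ℕ} (c0 : ℂ) (c : Fin n → ℂ) (i : Fin n) :
    MvPolynomial.coeff (Finsupp.single i 1) (lp c0 c) = c i := by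
  rw [coeff_lp, if_neg, zero_add, Finset.sum_eq_single i, if_pos rfl]
  · intro j _ hj
    rw [if_neg]
    intro h
    exact hj ((Finsupp.single_left_inj one_ne_zero).1 h)
  · intro h
    exact absurd (Finset.mem_univ i) h
  · intro h
    have := DFunLike.congr_fun h i
    simp at this

private theorem supp_lp {n : ℕ} (c0 : ℂ) (c : Fin n → ℂ) (m : Fin n →₀ ℕ) (h : m ∈ (lp c0 c).support) :
    (m = 0 ∧ c0 ≠ 0) ∨ ∃ j, m = Finsupp.single j 1 ∧ c j ≠ 0 := by
  rw [MvPolynomial.mem_support_iff] at h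
  by_cases h0 : 0 = m
  · left
    refine ⟨h0.symm, ?_⟩
    rwa [← h0, coeff_lp_zero] at h
  · right
    rw [coeff_lp, if_neg h0, zero_add] at h
    obtain ⟨j, -, hj⟩ := Finset.exists_ne_zero_of_sum_ne_zero h
    by_cases hm : Finsupp.single j 1 = m
    · rw [if_pos hm] at hj
      exact ⟨j, hm.symm, hj⟩
    · rw [if_neg hm] at hj
      exact absurd rfl hj

private theorem wt_zero {n : ℕ} (w : Fin n → ℤ) : wt w 0 = 0 := by
  unfold wt
  simp

private theorem wt_one {n : ℕ} (w : Fin n → ℤ) (i : Fin n) : wt w (Finsupp.single i 1) = w i := by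
  unfold wt
  rw [Finset.sum_eq_single i]
  · simp
  · intro j _ hj
    rw [Finsupp.single_eq_of_ne hj]
    simp
  · intro h
    exact absurd (Finset.mem_univ i) h

/-- the minimal weight -/
private theorem monO_eq {n : ℕ} (w : Fin n → ℤ) (p : Pn n) (c : ℤ) (h1 : ∀ m ∈ p.support, c ≤ wt w m)
    (h2 : ∃ m ∈ p.support, wt w m = c) : monO w p = c := by
  obtain ⟨m, hm, hc⟩ := h2
  unfold monO
  rw [dif_pos ⟨m, hm⟩]
  apply le_antisymm
  · rw [← hc]
    exact Finset.inf'_le _ hm
  · exact Finset.le_inf' _ _ h1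

theorem hMVF (hLPX : StLPX) (hSIG : StSIG) (hTRO : StTRO) : StMVF := by
  classical
  intro K _ _ V r B n L Fr k J hJ hne hcomp
  obtain ⟨a0, ha0k, ha0J⟩ := hcomp
  choose b hb using Fr.surj
  -- the base points
  obtain ⟨β, hβ, hβJ⟩ : ∃ β : Fin r → Fin (n + r), (∀ l, Fr.bl (β l) = l) ∧ ∀ l, β l ∉ J := by
    refine ⟨fun l => if l = k then a0 else b l, fun l => ?_, fun l => ?_⟩
    · beta_reduce
      by_cases hl : l = k
      · rw [if_pos hl, ha0k, hl]
      · rw [if_neg hl, hb]
    · beta_reduce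
      by_cases hl : l = k
      · rw [if_pos hl]
        exact ha0J
      · rw [if_neg hl]
        intro h
        have := hJ _ h
        rw [hb] at this
        exact hl this
  obtain ⟨L', e, hch⟩ := hLPX K V r B n L Fr β hβ
  obtain ⟨σ, hσ⟩ := hSIG K V r B n L Fr β L' e hch
  obtain ⟨hT1, hT2, -⟩ := hTRO K n L' σ hσ
  -- the weights
  obtain ⟨w, hw⟩ : ∃ w : Fin n → ℤ, ∀ j, w j = if e j ∈ J then 1 else 0 := ⟨_, fun _ => rfl⟩
  have hchart : ∀ a, a ≠ β (Fr.bl a) → ∃ j, e j = a := fun a ha => (hch.range a).2 ha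
  have huw : ∃ u : Fin n → ℤ, ∑ j, w j * u j = 1 := by
    obtain ⟨a1, ha1⟩ := hne
    obtain ⟨j1, hj1⟩ := hchart a1 (fun h => hβJ (Fr.bl a1) (h ▸ ha1))
    refine ⟨Pi.single j1 1, ?_⟩
    rw [Finset.sum_eq_single j1]
    · rw [hw, hj1, if_pos ha1, Pi.single_eq_same]
      norm_num
    · intro j _ hj
      rw [Pi.single_eq_of_ne hj, mul_zero]
    · intro h
      exact absurd (Finset.mem_univ j1) h
  obtain ⟨u, hu⟩ := huw
  obtain ⟨v', hv'⟩ := hTorV hExt hMon n w u hu
  have hom := hTorOm hExt hMon n w u hu v' hv'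
  obtain ⟨v, hv⟩ := hT2 v'
  obtain ⟨v'', hv'', hom''⟩ := hT1 v
  have hvv : v'' = v' := dv_ext (funext fun f => (hv'' f).trans (hv f).symm)
  rw [hvv, hom, hch.omega v] at hom''
  obtain ⟨hM1, hM2⟩ := hMon n w
  obtain ⟨-, -, -, hP⟩ := hExt n (monO w) hM1 hM2
  -- the order of a polynomial
  have hpol : ∀ p : Pn n, p ≠ 0 → v.ord (σ (algebraMap (Pn n) (Kn n) p)) = monO w p := by
    intro p hp
    rw [← hv, hv']
    exact hP p hp
  have hmul : ∀ f g : K, f ≠ 0 → g ≠ 0 → v.ord (f * g) = v.ord f + v.ord g := v.ord_mul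
  -- polynomials of degree at most one
  have hσlp : ∀ (c0 : ℂ) (c : Fin n → ℂ), σ (algebraMap (Pn n) (Kn n) (lp c0 c)) =
      algebraMap ℂ K c0 + ∑ j, algebraMap ℂ K (c j) * L'.z j := by
    intro c0 c
    have hC : ∀ z : ℂ, σ (algebraMap (Pn n) (Kn n) (MvPolynomial.C z)) = algebraMap ℂ K z := by
      intro z
      have h1 : algebraMap (Pn n) (Kn n) (MvPolynomial.C z) = algebraMap ℂ (Kn n) z := by
        rw [IsScalarTower.algebraMap_apply ℂ (Pn n) (Kn n)]
        rfl
      rw [h1]
      exact σ.commutes z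
    unfold lp
    rw [map_add, map_add, hC, map_sum, map_sum]
    congr 1
    refine Finset.sum_congr rfl fun j _ => ?_
    rw [map_mul, map_mul, hC]
    congr 1
    exact hσ j
  have hlp1 : ∀ (c0 : ℂ) (c : Fin n → ℂ), (c0 ≠ 0 ∨ ∃ j, c j ≠ 0) →
      lp c0 c ≠ 0 ∧ (c0 = 0 → (∀ j, c j ≠ 0 → e j ∈ J) → monO w (lp c0 c) = 1) ∧
      ((c0 ≠ 0 ∨ ∃ j, c j ≠ 0 ∧ e j ∉ J) → monO w (lp c0 c) = 0) := by
    intro c0 c h
    refine ⟨?_, ?_, ?_⟩
    · intro h0
      rcases h with h | ⟨j, h⟩
      · apply h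
        rw [← coeff_lp_zero c0 c, h0, MvPolynomial.coeff_zero]
      · apply h
        rw [← coeff_lp_one c0 c, h0, MvPolynomial.coeff_zero]
    · intro h0 hall
      rcases h with h | ⟨j, hj⟩
      · exact absurd h0 h
      · apply monO_eq
        · intro m hm
          rcases supp_lp c0 c m hm with ⟨-, hc⟩ | ⟨i, rfl, hi⟩
          · exact absurd h0 hc
          · rw [wt_one, hw, if_pos (hall i hi)]
        · refine ⟨Finsupp.single j 1, ?_, ?_⟩
          · rw [MvPolynomial.mem_support_iff, coeff_lp_one]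
            exact hj
          · rw [wt_one, hw, if_pos (hall j hj)]
    · intro h'
      apply monO_eq
      · intro m hm
        rcases supp_lp c0 c m hm with ⟨rfl, -⟩ | ⟨i, rfl, -⟩
        · rw [wt_zero]
        · rw [wt_one, hw]
          split_ifs <;> norm_num
      · rcases h' with h' | ⟨j, hj, hjJ⟩
        · refine ⟨0, ?_, wt_zero w⟩
          rw [MvPolynomial.mem_support_iff, coeff_lp_zero]
          exact h'
        · refine ⟨Finsupp.single j 1, ?_, ?_⟩
          · rw [MvPolynomial.mem_support_iff, coeff_lp_one]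
            exact hj
          · rw [wt_one, hw, if_neg hjJ]
  -- the coordinates
  have hgz : ∀ j, Fr.g (e j) = Fr.g (β (Fr.bl (e j))) * L'.z j := by
    intro j
    rw [hch.z_eq j, mul_div_cancel₀ _ (Fr.ne _)]
  have hz0 : ∀ j, L'.z j ≠ 0 := by
    intro j
    rw [hch.z_eq j]
    exact div_ne_zero (Fr.ne _) (Fr.ne _)
  have hzord : ∀ j, v.ord (L'.z j) = w j := by
    intro j
    have hX : monO w (MvPolynomial.X j : Pn n) = w j := by
      apply monO_eq
      · intro m hm
        rw [MvPolynomial.support_X, Finset.mem_singleton] at hm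
        rw [hm, wt_one]
      · exact ⟨Finsupp.single j 1, by rw [MvPolynomial.support_X, Finset.mem_singleton], wt_one w j⟩
    rw [← hX, ← hpol _ (MvPolynomial.X_ne_zero j), ← hσ j]
    rfl
  refine ⟨v, fun l => v.ord (Fr.g (β l)), hom''.symm, ?_, ?_⟩
  · intro a
    by_cases ha : a = β (Fr.bl a)
    · have haJ : a ∉ J := by
        rw [ha]
        exact hβJ _
      rw [if_neg haJ, add_zero]
      exact congrArg (fun t => v.ord (Fr.g t)) ha
    · obtain ⟨j, rfl⟩ := hchart a ha
      rw [← hw, ← hzord, ← hmul _ _ (Fr.ne _) (hz0 j), ← hgz]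
  · intro l x hx hx0
    -- the section as a polynomial
    have hxe : ∀ j, Fr.bl (e j) ≠ l → x (e j) = 0 := fun j hj => hx (e j) hj
    have hsec : Fr.sec x = Fr.g (β l) * σ (algebraMap (Pn n) (Kn n) (lp (x (β l)) fun j => x (e j))) := by
      rw [hσlp]
      unfold Frame.sec
      rw [← Finset.sum_add_sum_compl (Finset.univ.image e), Finset.sum_image (fun i _ j _ h => hch.inj h),
        add_comm, mul_add]
      congr 1
      · rw [Finset.sum_eq_single_of_mem (β l), mul_comm]
        · rw [Finset.mem_compl, Finset.mem_image]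
          rintro ⟨j, -, hj⟩
          have := (hch.range (β l)).1 ⟨j, hj⟩
          rw [hβ] at this
          exact this rfl
        · intro a ha hal
          have ha' : a = β (Fr.bl a) := by
            by_contra hcon
            obtain ⟨j, hj⟩ := hchart a hcon
            rw [Finset.mem_compl, Finset.mem_image] at ha
            exact ha ⟨j, Finset.mem_univ _, hj⟩
          have hbl : Fr.bl a ≠ l := by
            intro h
            rw [h] at ha'
            exact hal ha'
          rw [hx a hbl, map_zero, zero_mul]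
      · rw [Finset.mul_sum]
        refine Finset.sum_congr rfl fun j _ => ?_
        by_cases hj : Fr.bl (e j) = l
        · rw [hgz j, hj]
          ring
        · rw [hxe j hj, map_zero]
          ring
    have hnz : x (β l) ≠ 0 ∨ ∃ j, x (e j) ≠ 0 := by
      by_contra hcon
      push Not at hcon
      apply hx0
      funext a
      by_cases ha : a = β (Fr.bl a)
      · by_cases hl : Fr.bl a = l
        · rw [ha, hl]
          exact hcon.1
        · exact hx a hl
      · obtain ⟨j, rfl⟩ := hchart a ha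
        exact hcon.2 j
    obtain ⟨p1, p2, p3⟩ := hlp1 (x (β l)) (fun j => x (e j)) hnz
    have hσ0 : σ (algebraMap (Pn n) (Kn n) (lp (x (β l)) fun j => x (e j))) ≠ 0 := by
      intro h
      apply p1
      apply (FaithfulSMul.algebraMap_eq_zero_iff (Pn n) (Kn n)).1
      exact σ.injective (h.trans (map_zero σ).symm)
    have hord : v.ord (Fr.sec x) = v.ord (Fr.g (β l)) + monO w (lp (x (β l)) fun j => x (e j)) := by
      rw [hsec, hmul _ _ (Fr.ne _) hσ0, hpol _ p1]
    refine ⟨fun hall => ?_, fun hex => ?_⟩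
    · rw [hord, p2]
      · by_contra hcon
        exact hβJ l (hall _ hcon)
      · intro j hj
        exact hall _ hj
    · rw [hord, p3, add_zero]
      obtain ⟨a, hxa, haJ⟩ := hex
      have hal : Fr.bl a = l := by
        by_contra hcon
        exact hxa (hx a hcon)
      by_cases ha : a = β (Fr.bl a)
      · left
        rw [ha, hal] at hxa
        exact hxa
      · right
        obtain ⟨j, rfl⟩ := hchart a ha
        exact ⟨j, hxa, haJ⟩

end Pool.Agent.Helper34.GX
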